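import Pool.Agent.Y381.UC.Defs

/-!
# Project UC (helper381): mean of the quotient
-/

set_option autoImplicit false

open Finset

namespace Pool.Agent.Y662.UC

theorem pointwise {D B T t d E : ℝ} (hD : 0 < D) (hTD : T ≤ D / 1000) (hT : 0 ≤ T)
    (ht : |t| ≤ 2) (hd : |d| ≤ B) (hBD : B ≤ D / 2) (hE : 0 ≤ E)
    (key : 2 * B + B ^ 2 / 1000 ≤ E / 2) :
    (T + t) / (D + d) ≤ T / D + (t * D - T * d) / D ^ 2 + E / D ^ 2 := by
  have hd' := abs_le.1 hd
  have hB : 0 ≤ B := (abs_nonneg d).trans hd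
  have hDd : 0 < D + d := by linarith [hd'.1]
  have h1 : T / D + (t * D - T * d) / D ^ 2 + E / D ^ 2 =
      (T * D + (t * D - T * d) + E) / D ^ 2 := by
    field_simp
  rw [h1, div_le_div_iff₀ hDd (by positivity)]
  have h2 : |t * d| ≤ 2 * B := by
    rw [abs_mul]
    exact mul_le_mul ht hd (abs_nonneg _) (by norm_num)
  have h3 : -(2 * B) * D ≤ t * d * D := mul_le_mul_of_nonneg_right (abs_le.1 h2).1 hD.le
  have h4 : d ^ 2 ≤ B ^ 2 := sq_le_sq' hd'.1 hd'.2
  have h5 : T * d ^ 2 ≤ D / 1000 * B ^ 2 :=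
    mul_le_mul hTD h4 (sq_nonneg d) (by positivity)
  have h6 : E * (D / 2) ≤ E * (D + d) := mul_le_mul_of_nonneg_left (by linarith [hd'.1]) hE
  have h7 : (2 * B + B ^ 2 / 1000) * D ≤ E / 2 * D := mul_le_mul_of_nonneg_right key hD.le
  have h8 : (T * D + (t * D - T * d) + E) * (D + d) - (T + t) * D ^ 2 =
      t * d * D - T * d ^ 2 + E * (D + d) := by ring
  have h9 : 0 ≤ t * d * D - T * d ^ 2 + E * (D + d) := by linarith
  linarith

theorem t_Q : Pool.Agent.Y381.UC.S_Q := by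
  intro ι _ p T l W u T' hp0 hp1 hT hl1 hl2 hu hmean hT'
  have hsq2 : (1.414 : ℝ) ≤ Real.sqrt 2 := by
    apply Real.le_sqrt_of_sq_le
    norm_num
  have hl0 : 0 ≤ l := by linarith
  have hl14 : 1.414 ≤ l := by linarith
  have hlsq : 2 ≤ l ^ 2 := by
    have h := Real.sq_sqrt (show (0 : ℝ) ≤ 2 by norm_num)
    nlinarith [Real.sqrt_nonneg 2]
  have hlsq2 : l ^ 2 ≤ 4 := by nlinarith
  set s : ℝ := ‖W‖ with hs
  have hs0 : 0 ≤ s := norm_nonneg W
  set D : ℝ := s ^ 2 + 1000 * T with hDdef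
  have hs2 : 0 ≤ s ^ 2 := sq_nonneg s
  have hD : 0 < D := by linarith
  have hTD : T ≤ D / 1000 := by linarith
  let r : ι → ℝ := fun i => W.re * (u i).re + W.im * (u i).im
  have hnorm : s ^ 2 = W.re * W.re + W.im * W.im := by
    rw [hs, Complex.sq_norm, Complex.normSq_apply]
  have hun : ∀ i, (u i).re * (u i).re + (u i).im * (u i).im = 1 := by
    intro i
    rw [← Complex.normSq_apply, ← Complex.sq_norm, hu i]; norm_num
  have hr : ∀ i, |r i| ≤ s := by
    intro i
    apply abs_le_of_sq_le_sq _ hs0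
    have h1 : (r i) ^ 2 + (W.re * (u i).im - W.im * (u i).re) ^ 2 =
        (W.re * W.re + W.im * W.im) * ((u i).re * (u i).re + (u i).im * (u i).im) := by
      simp only [r]; ring
    rw [hun i, mul_one, ← hnorm] at h1
    nlinarith [sq_nonneg (W.re * (u i).im - W.im * (u i).re)]
  have hDi : ∀ i, ‖W + l * u i‖ ^ 2 + 1000 * T' i =
      D + (2 * l * r i + l ^ 2 + 1000 * (T' i - T)) := by
    intro i
    rw [Complex.sq_norm, Complex.normSq_apply]
    have h1 : (W + (l : ℂ) * u i).re = W.re + l * (u i).re := by simp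
    have h2 : (W + (l : ℂ) * u i).im = W.im + l * (u i).im := by simp
    rw [h1, h2, hDdef, hnorm]
    simp only [r]
    linear_combination l ^ 2 * hun i
  set E : ℝ := 0.164 * s ^ 2 + 24757 with hE
  have hpt : ∀ i, T' i / (‖W + l * u i‖ ^ 2 + 1000 * T' i) ≤
      T / D + ((T' i - T) * D - T * (2 * l * r i + l ^ 2 + 1000 * (T' i - T))) / D ^ 2 +
        E / D ^ 2 := by
    intro i
    have h1 : |l * r i| ≤ 2 * s := by
      rw [abs_mul, abs_of_nonneg hl0]
      exact mul_le_mul hl2 (hr i) (abs_nonneg _) (by norm_num)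
    have h2 := abs_le.1 h1
    have h3 := abs_le.1 (hT' i)
    have hd : |2 * l * r i + l ^ 2 + 1000 * (T' i - T)| ≤ 4 * s + 2004 := by
      rw [abs_le]
      constructor <;> linarith [h2.1, h2.2, h3.1, h3.2]
    have h4 := pointwise (B := 4 * s + 2004) (E := E) hD hTD (by linarith) (hT' i) hd
      (by rw [hDdef]; nlinarith [sq_nonneg (s - 4)]) (by rw [hE]; positivity)
      (by rw [hE]; nlinarith [sq_nonneg (s - 182)])
    rw [hDi i]
    have h5 : T + (T' i - T) = T' i := by ring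
    rw [h5] at h4
    exact h4
  have hre : ∑ i, p i * (u i).re = W.re / T := by
    have h := congrArg Complex.re hmean
    rw [Complex.re_sum] at h
    have h2 : (W / (T : ℂ)).re = W.re / T := Complex.div_ofReal_re W T
    rw [h2] at h
    rw [← h]
    exact Finset.sum_congr rfl fun i _ => by simp
  have him : ∑ i, p i * (u i).im = W.im / T := by
    have h := congrArg Complex.im hmean
    rw [Complex.im_sum] at h
    have h2 : (W / (T : ℂ)).im = W.im / T := Complex.div_ofReal_im W T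
    rw [h2] at h
    rw [← h]
    exact Finset.sum_congr rfl fun i _ => by simp
  have hT0 : T ≠ 0 := by linarith
  have hrm : T * ∑ i, p i * r i = s ^ 2 := by
    have h1 : ∑ i, p i * r i = W.re * ∑ i, p i * (u i).re + W.im * ∑ i, p i * (u i).im := by
      rw [Finset.mul_sum, Finset.mul_sum, ← Finset.sum_add_distrib]
      exact Finset.sum_congr rfl fun i _ => by simp only [r]; ring
    rw [h1, hre, him, hnorm]
    field_simp
  set τ : ℝ := ∑ i, p i * (T' i - T) with hτ
  have hτ2 : τ ≤ 2 := by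
    have h1 : τ ≤ ∑ i, p i * 2 := Finset.sum_le_sum fun i _ =>
      mul_le_mul_of_nonneg_left (abs_le.1 (hT' i)).2 (hp0 i)
    rw [← Finset.sum_mul, hp1, one_mul] at h1
    exact h1
  have hsum : ∑ i, p i * (T / D +
      ((T' i - T) * D - T * (2 * l * r i + l ^ 2 + 1000 * (T' i - T))) / D ^ 2 + E / D ^ 2) =
      T / D + (τ * D - 2 * l * s ^ 2 - T * l ^ 2 - 1000 * T * τ) / D ^ 2 + E / D ^ 2 := by
    have h1 : ∀ i, p i * (T / D +
        ((T' i - T) * D - T * (2 * l * r i + l ^ 2 + 1000 * (T' i - T))) / D ^ 2 + E / D ^ 2) =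
        p i * (T / D + E / D ^ 2 - T * l ^ 2 / D ^ 2) +
          (p i * (T' i - T)) * ((D - 1000 * T) / D ^ 2) +
          (p i * r i) * (-(2 * l * T) / D ^ 2) := by
      intro i; ring
    simp only [h1]
    rw [Finset.sum_add_distrib, Finset.sum_add_distrib, ← Finset.sum_mul, ← Finset.sum_mul,
      ← Finset.sum_mul, hp1, ← hτ, ← hrm]
    ring
  have hle : ∑ i, p i * (T' i / (‖W + l * u i‖ ^ 2 + 1000 * T' i)) ≤
      T / D + (τ * D - 2 * l * s ^ 2 - T * l ^ 2 - 1000 * T * τ) / D ^ 2 + E / D ^ 2 := by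
    rw [← hsum]
    exact Finset.sum_le_sum fun i _ => mul_le_mul_of_nonneg_left (hpt i) (hp0 i)
  refine hle.trans ?_
  have h1 : T / D - 1 / 1000 / D = T / D + (-(D / 1000)) / D ^ 2 := by
    field_simp
    ring
  rw [h1, add_assoc, ← add_div]
  have h2 : τ * D - 2 * l * s ^ 2 - T * l ^ 2 - 1000 * T * τ + E ≤ -(D / 1000) := by
    have h3 : τ * D - 1000 * T * τ = τ * s ^ 2 := by rw [hDdef]; ring
    have h4 : τ * s ^ 2 ≤ 2 * s ^ 2 := mul_le_mul_of_nonneg_right hτ2 hs2
    have h5 : 1.414 * s ^ 2 ≤ l * s ^ 2 := mul_le_mul_of_nonneg_right hl14 hs2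
    have h6 : T * 2 ≤ T * l ^ 2 := mul_le_mul_of_nonneg_left hlsq (by linarith)
    rw [hE, hDdef]
    linarith
  have h3 : (τ * D - 2 * l * s ^ 2 - T * l ^ 2 - 1000 * T * τ + E) / D ^ 2 ≤
      -(D / 1000) / D ^ 2 := div_le_div_of_nonneg_right h2 (by positivity)
  linarith

end Pool.Agent.Y662.UC
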