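import Pool.Agent.Y245.UC.Stm3

/-!
# UC-BOOT (for helper245): growth of exponent less than one near a boundary point of a disc
improves to boundedness

Adaptation of `Pool.Agent.Y779.SC.Boot2`: near the boundary point the Volterra equation is linear
in `sup |F|` along radial segments, with an integrable weight.
-/

set_option autoImplicit false

open Complex MeasureTheory Metric Set Filter Topology ComplexConjugate
open Pool.Agent.Y245.SC

namespace Pool.Agent.Y662.UC

open Pool.Agent.Y245.UC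

lemma kerU_bound {a : ℝ} (ha : 0 < a) (hkb : ∀ x : ℂ, ‖kap a x‖ ≤ a * Real.exp (a * ‖x‖))
    {φ : ℂ → ℂ} {v u0 ξ : ℂ} {f e B1 : ℝ} (hξ : ‖ξ‖ ≤ f) (he : f * ‖φ v - φ u0‖ ≤ e)
    (hd : ‖deriv φ v‖ ≤ B1) :
    ‖kerU a φ v u0 ξ‖ ≤ ‖ξ‖ ^ 2 * (a * Real.exp (a * e)) * B1 := by
  unfold kerU
  rw [norm_mul, norm_mul, norm_pow]
  have h2 : ‖kap a (ξ * (φ v - φ u0))‖ ≤ a * Real.exp (a * e) := by
    refine (hkb _).trans ?_
    have : ‖ξ * (φ v - φ u0)‖ ≤ e := by
      rw [norm_mul]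
      exact (mul_le_mul_of_nonneg_right hξ (norm_nonneg _)).trans he
    gcongr
  gcongr

lemma kerU_diff {a : ℝ} (hkd : Differentiable ℂ (kap a)) {φ F : ℂ → ℂ} {c : ℂ} {ρ : ℝ}
    (hφ : DifferentiableOn ℂ φ (ball 0 1)) (hsub : ball c ρ ⊆ ball 0 1)
    (hF : DifferentiableOn ℂ F (ball c ρ)) (u0 : ℂ) :
    DifferentiableOn ℂ (fun v => kerU a φ v u0 (F v)) (ball c ρ) := by
  intro v hv
  apply DifferentiableAt.differentiableWithinAt
  have hF' : DifferentiableAt ℂ F v := (hF v hv).differentiableAt (isOpen_ball.mem_nhds hv)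
  have hm : v ∈ ball (0 : ℂ) 1 := hsub hv
  have h1 : DifferentiableAt ℂ φ v := (hφ _ hm).differentiableAt (isOpen_ball.mem_nhds hm)
  have h2 : DifferentiableAt ℂ (deriv φ) v :=
    ((hφ.deriv isOpen_ball) _ hm).differentiableAt (isOpen_ball.mem_nhds hm)
  have h3 : DifferentiableAt ℂ (fun v => F v * (φ v - φ u0)) v := hF'.mul (h1.sub_const _)
  have h4 : DifferentiableAt ℂ (fun v => kap a (F v * (φ v - φ u0))) v :=
    DifferentiableAt.comp v (hkd _) h3
  unfold kerU
  exact ((hF'.pow 2).mul h4).mul h2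

/-- the integral of the weight -/
lemma weight {α h s : ℝ} (hα : α < 1) (hs : 0 < s) (hsh : s < h) :
    IntervalIntegrable (fun t : ℝ => (h - s * t) ^ (-α) * s) volume 0 1 ∧
    ∫ t in (0 : ℝ)..1, (h - s * t) ^ (-α) * s ≤ h ^ (1 - α) / (1 - α) := by
  constructor
  · apply ContinuousOn.intervalIntegrable
    refine ContinuousOn.mul (ContinuousOn.rpow_const (by fun_prop) ?_) continuousOn_const
    intro t ht
    rw [uIcc_of_le zero_le_one] at ht
    left
    have : s * t ≤ s := by nlinarith [ht.1, ht.2]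
    linarith
  · rw [intervalIntegral.integral_mul_const,
      intervalIntegral.integral_comp_sub_mul (fun u : ℝ => u ^ (-α)) hs.ne' h,
      integral_rpow (Or.inl (by linarith))]
    rw [smul_eq_mul, mul_one, mul_zero, sub_zero, show -α + 1 = 1 - α by ring]
    have e1 : s⁻¹ * ((h ^ (1 - α) - (h - s) ^ (1 - α)) / (1 - α)) * s =
        (h ^ (1 - α) - (h - s) ^ (1 - α)) / (1 - α) := by
      field_simp
    rw [e1]
    have h1 : 0 ≤ (h - s) ^ (1 - α) := Real.rpow_nonneg (by linarith) _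
    have h2 : 0 < 1 - α := by linarith
    gcongr
    linarith

/-- the point at distance `x` from the circle, in the direction `e` -/
noncomputable def pt (c : ℂ) (ρ : ℝ) (e : ℂ) (x : ℝ) : ℂ := c + ((ρ - x : ℝ) : ℂ) * e

lemma pt_norm {c e : ℂ} {ρ x : ℝ} (he : ‖e‖ = 1) (hx : x ≤ ρ) : ‖pt c ρ e x - c‖ = ρ - x := by
  rw [pt, add_sub_cancel_left, norm_mul, he, mul_one, Complex.norm_real, Real.norm_eq_abs,
    abs_of_nonneg (by linarith)]

lemma pt_sub {c e : ℂ} {ρ x y : ℝ} (he : ‖e‖ = 1) : ‖pt c ρ e x - pt c ρ e y‖ = |x - y| := by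
  have : pt c ρ e x - pt c ρ e y = ((y - x : ℝ) : ℂ) * e := by
    rw [pt, pt]
    push_cast
    ring
  rw [this, norm_mul, he, mul_one, Complex.norm_real, Real.norm_eq_abs, abs_sub_comm]

theorem uboot : U_BOOT := by
  intro hST hK hS hP φ F a ρ α C₀ δ c p P ha hρ hα0 hα hδ hφ hcb hF hgr0 hp hVG hPs
  obtain ⟨hkd, hkb, -⟩ := hK a ha.le
  have hbs : ball c ρ ⊆ ball (0 : ℂ) 1 := ball_subset_closedBall.trans hcb
  have hφ' : DifferentiableOn ℂ (deriv φ) (ball 0 1) := hφ.deriv isOpen_ball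
  obtain ⟨H, hH, hVH⟩ := hVG
  -- the equation in the whole disc
  have hEq : ∀ u0 ∈ ball c ρ, F u0 = H u0 + seg (fun v => kerU a φ v u0 (F v)) p u0 := by
    intro u0 hu0
    have h1 := (hST hK hS hP φ F H a 0 p u0 (ball c ρ) ha hφ isOpen_ball (convex_ball c ρ) hbs hF
      hp hu0 ⟨hH, hVH⟩).2.self_of_nhds
    simp only [sub_zero] at h1
    have h2 : seg (fun v => kerU a φ v u0 (F v)) u0 u0 = 0 := by
      unfold seg
      simp
    rw [h2, add_zero] at h1
    exact h1
  obtain ⟨B0, hB0⟩ : ∃ B0, ∀ w ∈ closedBall c ρ, ‖φ w‖ ≤ B0 :=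
    (isCompact_closedBall c ρ).exists_bound_of_continuousOn (hφ.continuousOn.mono hcb)
  obtain ⟨B1, hB1⟩ : ∃ B1, ∀ w ∈ closedBall c ρ, ‖deriv φ w‖ ≤ B1 :=
    (isCompact_closedBall c ρ).exists_bound_of_continuousOn (hφ'.continuousOn.mono hcb)
  obtain ⟨MH, hMH⟩ : ∃ MH, ∀ w ∈ closedBall c ρ, ‖H w‖ ≤ MH :=
    (isCompact_closedBall c ρ).exists_bound_of_continuousOn (hH.continuousOn.mono hcb)
  have hcc : c ∈ closedBall c ρ := mem_closedBall_self hρ.le
  have hB00 : 0 ≤ B0 := (norm_nonneg _).trans (hB0 c hcc)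
  have hB10 : 0 ≤ B1 := (norm_nonneg _).trans (hB1 c hcc)
  have hMH0 : 0 ≤ MH := (norm_nonneg _).trans (hMH c hcc)
  have hlip : ∀ v ∈ closedBall c ρ, ∀ w ∈ closedBall c ρ, ‖φ v - φ w‖ ≤ B1 * ‖v - w‖ := by
    intro v hv w hw
    exact (convex_closedBall c ρ).norm_image_sub_le_of_norm_deriv_le (𝕜 := ℂ) (f := φ)
      (C := B1) (fun x hx => (hφ x (hcb hx)).differentiableAt (isOpen_ball.mem_nhds (hcb hx)))
      hB1 hw hv
  -- replace the constant by a nonnegative one
  set C : ℝ := max C₀ 0 with hCdef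
  have hC : 0 ≤ C := le_max_right _ _
  have hgr : ∀ v ∈ ball c ρ, ‖v - P‖ < δ → ‖F v‖ ≤ C * (ρ - ‖v - c‖) ^ (-α) := by
    intro v hv hvP
    refine (hgr0 v hv hvP).trans ?_
    have : 0 ≤ (ρ - ‖v - c‖) ^ (-α) := by
      apply Real.rpow_nonneg
      rw [mem_ball, dist_eq_norm] at hv
      linarith
    exact mul_le_mul_of_nonneg_right (le_max_left _ _) this
  set κ0 : ℝ := a * Real.exp (a * (C * B1 * ρ ^ (1 - α))) with hκ0
  have hκ00 : 0 ≤ κ0 := by positivity
  set D : ℝ := C * κ0 * B1 with hD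
  have hD0 : 0 ≤ D := by positivity
  have hα1 : 0 < 1 - α := by linarith
  obtain ⟨h, hh2, hh0, hh1⟩ : ∃ h : ℝ, D * (h ^ (1 - α) / (1 - α)) < 1 / 2 ∧ 0 < h ∧
      h < min ρ (δ / 2) := by
    have hc : ContinuousAt (fun h : ℝ => D * (h ^ (1 - α) / (1 - α))) 0 :=
      ((Real.continuousAt_rpow_const 0 (1 - α) (Or.inr hα1.le)).div_const _).const_mul D
    have h0 : (fun h : ℝ => D * (h ^ (1 - α) / (1 - α))) 0 = 0 := by
      simp only [Real.zero_rpow hα1.ne', zero_div, mul_zero]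
    have hev : ∀ᶠ h : ℝ in 𝓝[>] 0, D * (h ^ (1 - α) / (1 - α)) < 1 / 2 := by
      refine (hc.eventually (gt_mem_nhds ?_)).filter_mono nhdsWithin_le_nhds
      rw [h0]
      norm_num
    obtain ⟨h, h1, h2⟩ := (hev.and (Ioo_mem_nhdsGT (lt_min hρ (half_pos hδ)))).exists
    exact ⟨h, h1, h2.1, h2.2⟩
  have hhρ : h < ρ := hh1.trans_le (min_le_left _ _)
  have hhδ : h < δ / 2 := hh1.trans_le (min_le_right _ _)
  set ρ' : ℝ := max ‖p - c‖ (ρ - h) with hρ'
  have hρ'ρ : ρ' < ρ := by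
    rw [hρ']
    refine max_lt ?_ (by linarith)
    rwa [mem_ball, dist_eq_norm] at hp
  have hρ'sub : closedBall c ρ' ⊆ ball c ρ := closedBall_subset_ball hρ'ρ
  obtain ⟨MF, hMF⟩ : ∃ MF, ∀ w ∈ closedBall c ρ', ‖F w‖ ≤ MF :=
    (isCompact_closedBall c ρ').exists_bound_of_continuousOn (hF.continuousOn.mono hρ'sub)
  have hρ'0 : 0 ≤ ρ' := le_max_of_le_right (by linarith)
  have hMF0 : 0 ≤ MF := (norm_nonneg _).trans (hMF c (mem_closedBall_self hρ'0))
  set K1 : ℝ := MF ^ 2 * (a * Real.exp (a * (MF * (2 * B0)))) * B1 with hK1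
  have hK10 : 0 ≤ K1 := by positivity
  set A' : ℝ := MH + K1 * (2 * ρ) with hA'
  have key : ∀ (e : ℂ) (x0 m : ℝ), ‖e‖ = 1 → 0 < x0 → x0 < h →
      (∀ x ∈ Icc x0 h, ‖pt c ρ e x - P‖ < δ) →
      (∀ x ∈ Icc x0 h, ‖F (pt c ρ e x)‖ ≤ m) → ‖F (pt c ρ e x0)‖ ≤ A' + m / 2 := by
    intro e x0 m he hx0 hx1 hPx hm
    have hm0 : 0 ≤ m := (norm_nonneg _).trans (hm h ⟨hx1.le, le_rfl⟩)
    set u0 : ℂ := pt c ρ e x0 with hu0
    set q : ℂ := pt c ρ e h with hq
    have hmem : ∀ x : ℝ, 0 < x → x ≤ ρ → pt c ρ e x ∈ ball c ρ := by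
      intro x hx hxρ
      rw [mem_ball, dist_eq_norm, pt_norm he hxρ]
      linarith
    have hu0m : u0 ∈ ball c ρ := hmem x0 hx0 (by linarith)
    have hqm : q ∈ ball c ρ := hmem h hh0 hhρ.le
    set g : ℂ → ℂ := fun v => kerU a φ v u0 (F v) with hg
    have hgd : DifferentiableOn ℂ g (ball c ρ) := kerU_diff hkd hφ hbs hF u0
    have h1 := hEq u0 hu0m
    have h2 := (hS (ball c ρ) g isOpen_ball (convex_ball c ρ) hgd).1 p hp q hqm u0 hu0m
    rw [h1, ← h2]
    have b1 : ‖H u0‖ ≤ MH := hMH _ (ball_subset_closedBall hu0m)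
    have b2 : ‖seg g p q‖ ≤ K1 * (2 * ρ) := by
      unfold seg
      have hpc : p ∈ closedBall c ρ' := by
        rw [mem_closedBall, dist_eq_norm]
        exact le_max_left _ _
      have hqc : q ∈ closedBall c ρ' := by
        rw [mem_closedBall, dist_eq_norm, hq, pt_norm he hhρ.le]
        exact le_max_right _ _
      have h3 : ‖q - p‖ ≤ 2 * ρ := by
        have e1 : ‖q - p‖ ≤ ‖q - c‖ + ‖p - c‖ := by
          have : q - p = (q - c) - (p - c) := by ring
          rw [this]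
          exact norm_sub_le _ _
        rw [mem_ball, dist_eq_norm] at hp hqm
        linarith
      have h4 : ∀ t ∈ uIoc (0 : ℝ) 1, ‖g (p + t * (q - p)) * (q - p)‖ ≤ K1 * (2 * ρ) := by
        intro t ht
        rw [uIoc_of_le zero_le_one] at ht
        rw [norm_mul]
        have hseg : p + (t : ℂ) * (q - p) ∈ closedBall c ρ' := by
          have := (convex_closedBall c ρ').add_smul_sub_mem hpc hqc ⟨ht.1.le, ht.2⟩
          rwa [Complex.real_smul] at this
        have hFt := hMF _ hseg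
        have hsc := ball_subset_closedBall (hρ'sub hseg)
        have hd : ‖φ (p + (t : ℂ) * (q - p)) - φ u0‖ ≤ 2 * B0 := by
          refine (norm_sub_le _ _).trans ?_
          have e1 := hB0 _ hsc
          have e2 := hB0 _ (ball_subset_closedBall hu0m)
          linarith
        have h5 := kerU_bound ha hkb (φ := φ) (v := p + (t : ℂ) * (q - p)) (u0 := u0) hFt
          (mul_le_mul_of_nonneg_left hd hMF0) (hB1 _ hsc)
        have h6 : ‖g (p + (t : ℂ) * (q - p))‖ ≤ K1 := by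
          refine h5.trans ?_
          rw [hK1]
          gcongr
        exact mul_le_mul h6 h3 (norm_nonneg _) hK10
      have h5 := intervalIntegral.norm_integral_le_of_norm_le_const h4
      simpa using h5
    have b3 : ‖seg g q u0‖ ≤ m / 2 := by
      unfold seg
      set s : ℝ := h - x0 with hs
      have hs0 : 0 < s := by linarith
      have hsh : s < h := by linarith
      obtain ⟨w1, w2⟩ := weight hα hs0 hsh
      have hnorm : ‖u0 - q‖ = s := by
        rw [hu0, hq, pt_sub he, abs_sub_comm, abs_of_pos hs0]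
      have h4 : ∀ t ∈ Ioc (0 : ℝ) 1, ‖g (q + t * (u0 - q)) * (u0 - q)‖ ≤
          (m * D) * ((h - s * t) ^ (-α) * s) := by
        intro t ht
        rw [norm_mul, hnorm]
        set x : ℝ := h - s * t with hx
        have hst : s * t ≤ s := by nlinarith [ht.1, ht.2]
        have hst0 : 0 < s * t := mul_pos hs0 ht.1
        have hpt : q + (t : ℂ) * (u0 - q) = pt c ρ e x := by
          rw [hu0, hq, hx, hs, pt, pt, pt]
          push_cast
          ring
        rw [hpt]
        have hx0' : x0 ≤ x := by linarith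
        have hx1' : x ≤ h := by linarith
        have hxp : 0 < x := by linarith
        have hxρ : x ≤ ρ := by linarith
        have hxm : pt c ρ e x ∈ ball c ρ := hmem x hxp hxρ
        have hxc := ball_subset_closedBall hxm
        have f1 : ‖F (pt c ρ e x)‖ ≤ m := hm x ⟨hx0', hx1'⟩
        have f2 : ‖F (pt c ρ e x)‖ ≤ C * x ^ (-α) := by
          have := hgr (pt c ρ e x) hxm (hPx x ⟨hx0', hx1'⟩)
          rwa [pt_norm he hxρ, sub_sub_cancel] at this
        have hd : ‖φ (pt c ρ e x) - φ u0‖ ≤ B1 * x := by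
          refine (hlip _ hxc _ (ball_subset_closedBall hu0m)).trans ?_
          refine mul_le_mul_of_nonneg_left ?_ hB10
          rw [hu0, pt_sub he, abs_of_nonneg (by linarith)]
          linarith
        have hr0 : 0 ≤ x ^ (-α) := Real.rpow_nonneg hxp.le _
        have he' : C * x ^ (-α) * ‖φ (pt c ρ e x) - φ u0‖ ≤ C * B1 * ρ ^ (1 - α) := by
          have e1 : C * x ^ (-α) * ‖φ (pt c ρ e x) - φ u0‖ ≤ C * x ^ (-α) * (B1 * x) :=
            mul_le_mul_of_nonneg_left hd (by positivity)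
          have e2 : C * x ^ (-α) * (B1 * x) = C * B1 * x ^ (1 - α) := by
            rw [show 1 - α = -α + 1 by ring, Real.rpow_add_one hxp.ne']
            ring
          have e3 : x ^ (1 - α) ≤ ρ ^ (1 - α) := Real.rpow_le_rpow hxp.le hxρ hα1.le
          rw [e2] at e1
          refine e1.trans ?_
          gcongr
        have h5 := kerU_bound ha hkb (φ := φ) (v := pt c ρ e x) (u0 := u0) f2 he' (hB1 _ hxc)
        have h6 : ‖F (pt c ρ e x)‖ ^ 2 ≤ m * (C * x ^ (-α)) := by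
          rw [sq]
          exact mul_le_mul f1 f2 (norm_nonneg _) hm0
        have h7 : ‖g (pt c ρ e x)‖ ≤ m * D * x ^ (-α) := by
          refine h5.trans ?_
          rw [← hκ0, hD]
          calc ‖F (pt c ρ e x)‖ ^ 2 * κ0 * B1 ≤ m * (C * x ^ (-α)) * κ0 * B1 := by gcongr
            _ = m * (C * κ0 * B1) * x ^ (-α) := by ring
        calc ‖g (pt c ρ e x)‖ * s ≤ (m * D * x ^ (-α)) * s :=
              mul_le_mul_of_nonneg_right h7 hs0.le
          _ = (m * D) * (x ^ (-α) * s) := by ring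
      have h5 := intervalIntegral.norm_integral_le_of_norm_le (μ := volume) zero_le_one
        (Eventually.of_forall h4) (w1.const_mul (m * D))
      refine h5.trans ?_
      rw [intervalIntegral.integral_const_mul]
      have h6 : m * D * ∫ t in (0 : ℝ)..1, (h - s * t) ^ (-α) * s ≤
          m * D * (h ^ (1 - α) / (1 - α)) := mul_le_mul_of_nonneg_left w2 (by positivity)
      refine h6.trans ?_
      rw [mul_assoc]
      nlinarith
    have b4 : ‖H u0 + (seg g p q + seg g q u0)‖ ≤ ‖H u0‖ + (‖seg g p q‖ + ‖seg g q u0‖) :=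
      (norm_add_le _ _).trans (add_le_add le_rfl (norm_add_le _ _))
    rw [hA']
    linarith
  refine ⟨min h (δ / 4), max MF (2 * A'), lt_min hh0 (by positivity), fun v hv hvP => ?_⟩
  have hvh : ‖v - P‖ < h := hvP.trans_le (min_le_left _ _)
  have hvδ : ‖v - P‖ < δ / 4 := hvP.trans_le (min_le_right _ _)
  obtain ⟨x0, hx0⟩ : ∃ x0 : ℝ, x0 = ρ - ‖v - c‖ := ⟨_, rfl⟩
  have hvc : ‖v - c‖ < ρ := by rwa [mem_ball, dist_eq_norm] at hv
  have hx00 : 0 < x0 := by linarith
  have hPc : ‖P - c‖ = ρ := by rwa [mem_sphere, dist_eq_norm] at hPs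
  have hx0P : x0 ≤ ‖v - P‖ := by
    have : ‖P - c‖ ≤ ‖v - P‖ + ‖v - c‖ := by
      have e1 : P - c = (v - c) - (v - P) := by ring
      rw [e1]
      linarith [norm_sub_le (v - c) (v - P)]
    linarith
  have hx0h : x0 < h := by linarith
  have hvc0 : 0 < ‖v - c‖ := by linarith
  obtain ⟨e, he⟩ : ∃ e : ℂ, e = (v - c) / (‖v - c‖ : ℂ) := ⟨_, rfl⟩
  have hne : ((‖v - c‖ : ℝ) : ℂ) ≠ 0 := by exact_mod_cast hvc0.ne'
  have he1 : ‖e‖ = 1 := by
    rw [he, norm_div, Complex.norm_real, Real.norm_eq_abs, abs_of_pos hvc0, div_self hvc0.ne']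
  have hvpt : pt c ρ e x0 = v := by
    rw [pt, hx0, sub_sub_cancel, he, mul_div_cancel₀ _ hne]
    ring
  have hPx : ∀ x ∈ Icc x0 h, ‖pt c ρ e x - P‖ < δ := by
    intro x hx
    have e1 : pt c ρ e x - P = (pt c ρ e x - pt c ρ e x0) + (v - P) := by
      rw [hvpt]
      ring
    rw [e1]
    refine (norm_add_le _ _).trans_lt ?_
    rw [pt_sub he1, abs_of_nonneg (by linarith [hx.1])]
    linarith [hx.2]
  have hmem : ∀ x : ℝ, 0 < x → x ≤ ρ → pt c ρ e x ∈ ball c ρ := by
    intro x hx hxρ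
    rw [mem_ball, dist_eq_norm, pt_norm he1 hxρ]
    linarith
  have hcont : ContinuousOn (fun x : ℝ => ‖F (pt c ρ e x)‖) (Icc x0 h) := by
    intro x hx
    have hxm := hmem x (by linarith [hx.1]) (by linarith [hx.2])
    have h1 : ContinuousAt F (pt c ρ e x) :=
      ((hF _ hxm).differentiableAt (isOpen_ball.mem_nhds hxm)).continuousAt
    have h2 : ContinuousAt (fun x : ℝ => pt c ρ e x) x := by
      unfold pt
      fun_prop
    exact (ContinuousAt.comp (f := fun x : ℝ => pt c ρ e x) h1 h2).norm.continuousWithinAt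
  obtain ⟨x1, hx1, hmax⟩ := isCompact_Icc.exists_isMaxOn (nonempty_Icc.2 hx0h.le) hcont
  have h1 : ‖F v‖ ≤ ‖F (pt c ρ e x1)‖ := by
    have := hmax (show x0 ∈ Icc x0 h from ⟨le_rfl, hx0h.le⟩)
    simp only [mem_ofPred_eq] at this
    rwa [hvpt] at this
  refine h1.trans ?_
  rcases eq_or_lt_of_le hx1.2 with heq | hlt
  · refine (hMF _ ?_).trans (le_max_left _ _)
    rw [mem_closedBall, dist_eq_norm, heq, pt_norm he1 hhρ.le]
    exact le_max_right _ _
  · have h2 := key e x1 _ he1 (lt_of_lt_of_le hx00 hx1.1) hlt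
      (fun x hx' => hPx x ⟨hx1.1.trans hx'.1, hx'.2⟩)
      (fun x hx' => hmax (show x ∈ Icc x0 h from ⟨hx1.1.trans hx'.1, hx'.2⟩))
    refine le_trans ?_ (le_max_right _ _)
    linarith

end Pool.Agent.Y662.UC
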